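import Mathlib

open Finset

namespace Pool.Agent.Helper437.Sk

/-- the parity `χ_S(x) = ∑_{i ∈ S} x_i mod 2` -/
def chi {n : ℕ} (S : Finset (Fin n)) (x : Fin n → ZMod 2) : ZMod 2 := ∑ i ∈ S, x i

/-- there is a randomized linear sketch of `f` with `k` parities -/
def LinSketch {n : ℕ} (f : (Fin n → ZMod 2) → Bool) (k : ℕ) : Prop :=
  ∃ (p : (Fin k → Finset (Fin n)) → ℝ)
    (g : (Fin k → Finset (Fin n)) → (Fin k → ZMod 2) → Bool),
    (∀ S, 0 ≤ p S) ∧ ∑ S, p S = 1 ∧
    ∀ x, 2 / 3 ≤ ∑ S ∈ univ.filter (fun S => g S (fun j => chi (S j) x) = f x), p S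

/-- there is a public-coin one-way protocol for `F` with messages of at most `c` bits -/
def OneWay {X Y : Type} (F : X → Y → Bool) (c : ℕ) : Prop :=
  ∃ (Ω : Type) (_ : Fintype Ω) (p : Ω → ℝ) (msg : Ω → X → List Bool)
    (out : Ω → List Bool → Y → Bool),
    (∀ ω, 0 ≤ p ω) ∧ ∑ ω, p ω = 1 ∧ (∀ ω x, (msg ω x).length ≤ c) ∧
    ∀ x y, 2 / 3 ≤ ∑ ω ∈ univ.filter (fun ω => out ω (msg ω x) y = F x y), p ω

/-- `R^lin(f)` -/
noncomputable def Rlin {n : ℕ} (f : (Fin n → ZMod 2) → Bool) : ℕ := sInf {k | LinSketch f k}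

/-- `R^→(F)` -/
noncomputable def Rone {X Y : Type} (F : X → Y → Bool) : ℕ := sInf {c | OneWay F c}

/-- `f^+(x,y) = f(x ⊕ y)` -/
def xorFun {n : ℕ} (f : (Fin n → ZMod 2) → Bool) :
    (Fin n → ZMod 2) → (Fin n → ZMod 2) → Bool := fun x y => f (x + y)

/-- abstract linear sketch on a general finite coordinate type -/
def LinA {J : Type} (f : (J → ZMod 2) → Bool) (k : ℕ) : Prop :=
  ∃ (Ω : Type) (_ : Fintype Ω) (p : Ω → ℝ) (φ : Ω → (J → ZMod 2) →ₗ[ZMod 2] (Fin k → ZMod 2))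
    (g : Ω → (Fin k → ZMod 2) → Bool),
    (∀ ω, 0 ≤ p ω) ∧ ∑ ω, p ω = 1 ∧
    ∀ x, 2 / 3 ≤ ∑ ω ∈ univ.filter (fun ω => g ω (φ ω x) = f x), p ω

/-- `𝔽₃`-rank of a family of columns -/
noncomputable def rkf {J R : Type} (b : J → R → ZMod 3) (s : Set J) : ℕ :=
  Module.finrank (ZMod 3) (Submodule.span (ZMod 3) (b '' s))

/-- the Boolean function: is the `𝔽₃`-rank of the columns in the support of `z` at most `t`? -/
noncomputable def fJ {J R : Type} (b : J → R → ZMod 3) (t : ℕ) (z : J → ZMod 2) : Bool :=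
  decide (rkf b {j | z j ≠ 0} ≤ t)

/-! ### nonemptiness and transfer -/

-- (job 32070)
theorem linSketch_exists {n : ℕ} (f : (Fin n → ZMod 2) → Bool) : ∃ k, LinSketch f k := by
  classical
  refine ⟨n, fun S => if S = (fun j => {j}) then 1 else 0, fun _ v => f v, ?_, ?_, ?_⟩
  · intro S
    dsimp only
    split_ifs
    · exact zero_le_one
    · exact le_rfl
  · rw [Finset.sum_ite_eq' Finset.univ (fun j : Fin n => ({j} : Finset (Fin n)))]
    simp
  · intro x
    have hm : (fun j : Fin n => ({j} : Finset (Fin n))) ∈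
        univ.filter (fun S : Fin n → Finset (Fin n) => f (fun j => chi (S j) x) = f x) := by
      rw [Finset.mem_filter]
      refine ⟨Finset.mem_univ _, ?_⟩
      congr 1
      funext j
      simp [chi]
    rw [Finset.sum_ite_eq' _ (fun j : Fin n => ({j} : Finset (Fin n))), if_pos hm]
    norm_num

-- (job 32075)
/-- the linear map of one sketch -/
def lin_transfer_phi {J : Type} {n : ℕ} (e : J ≃ Fin n) {k : ℕ} (S : Fin k → Finset (Fin n)) :
    (J → ZMod 2) →ₗ[ZMod 2] (Fin k → ZMod 2) where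
  toFun x := fun j => chi (S j) (fun a => x (e.symm a))
  map_add' x y := by
    funext j
    simp only [chi, Pi.add_apply, Finset.sum_add_distrib]
  map_smul' c x := by
    funext j
    simp only [chi, Pi.smul_apply, smul_eq_mul, RingHom.id_apply, Finset.mul_sum]

theorem lin_transfer {J : Type} {n : ℕ} (e : J ≃ Fin n) (f : (J → ZMod 2) → Bool) (k : ℕ)
    (h : LinSketch (fun z : Fin n → ZMod 2 => f (fun j => z (e j))) k) : LinA f k := by
  obtain ⟨p, g, hp, hs, hx⟩ := h
  refine ⟨Fin k → Finset (Fin n), inferInstance, p, fun S => lin_transfer_phi e S, g, hp, hs, ?_⟩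
  intro x
  have h1 := hx (fun a => x (e.symm a))
  have h2 : (fun j => x (e.symm (e j))) = x := by
    funext j; rw [Equiv.symm_apply_apply]
  simp only [h2] at h1
  exact h1

-- (job 32080)
theorem oneway_transfer {J : Type} {n : ℕ} (e : J ≃ Fin n) (f : (J → ZMod 2) → Bool) (c : ℕ)
    (h : OneWay (fun x y : J → ZMod 2 => f (x + y)) c) :
    OneWay (xorFun (fun z : Fin n → ZMod 2 => f (fun j => z (e j)))) c := by
  obtain ⟨Ω, iΩ, p, msg, out, hp, hp1, hl, hx⟩ := h
  exact ⟨Ω, iΩ, p, fun ω x => msg ω (fun j => x (e j)), fun ω l y => out ω l (fun j => y (e j)),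
    hp, hp1, fun ω x => hl ω _, fun x y => hx (fun j => x (e j)) (fun j => y (e j))⟩

/-! ### random matrices over `ZMod 3` -/

-- (job 32061)
theorem mat_kernel_count {α : Type} [Fintype α] [DecidableEq α] (L : ℕ) (v : α → ZMod 3)
    (hv : v ≠ 0) :
    3 ^ L * (univ.filter (fun P : Matrix (Fin L) α (ZMod 3) => P.mulVec v = 0)).card =
      Fintype.card (Matrix (Fin L) α (ZMod 3)) := by
  classical
  haveI : Fact (Nat.Prime 3) := ⟨by norm_num⟩
  let φ : Matrix (Fin L) α (ZMod 3) →+ (Fin L → ZMod 3) :=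
    { toFun := fun P => P.mulVec v
      map_zero' := Matrix.zero_mulVec v
      map_add' := fun A B => Matrix.add_mulVec A B v }
  have hsurj : Function.Surjective φ := by
    obtain ⟨a0, ha0⟩ := Function.ne_iff.1 hv
    have ha1 : v a0 ≠ 0 := ha0
    intro w
    refine ⟨Matrix.of (fun l a => if a = a0 then w l / v a0 else 0), ?_⟩
    funext l
    show ∑ a, (if a = a0 then w l / v a0 else 0) * v a = w l
    rw [Finset.sum_eq_single a0]
    · rw [if_pos rfl, div_mul_cancel₀ _ ha1]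
    · intro b _ hb
      rw [if_neg hb, zero_mul]
    · intro h
      exact absurd (Finset.mem_univ _) h
  have h1 : Nat.card (Matrix (Fin L) α (ZMod 3)) =
      Nat.card (Matrix (Fin L) α (ZMod 3) ⧸ φ.ker) * Nat.card φ.ker :=
    AddSubgroup.card_eq_card_quotient_mul_card_addSubgroup φ.ker
  have h2 : Nat.card (Matrix (Fin L) α (ZMod 3) ⧸ φ.ker) = Nat.card (Fin L → ZMod 3) :=
    Nat.card_congr (QuotientAddGroup.quotientKerEquivOfSurjective φ hsurj).toEquiv
  have h3 : Nat.card (Fin L → ZMod 3) = 3 ^ L := by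
    rw [Nat.card_eq_fintype_card, Fintype.card_fun, ZMod.card, Fintype.card_fin]
  have h4 : Nat.card φ.ker =
      (univ.filter (fun P : Matrix (Fin L) α (ZMod 3) => P.mulVec v = 0)).card := by
    rw [← Nat.subtype_card (univ.filter (fun P : Matrix (Fin L) α (ZMod 3) => P.mulVec v = 0))
      (p := fun P => P ∈ φ.ker)]
    · intro P
      rw [Finset.mem_filter, AddMonoidHom.mem_ker]
      exact ⟨fun h => h.2, fun h => ⟨Finset.mem_univ _, h⟩⟩
  rw [h2, h3, h4, Nat.card_eq_fintype_card] at h1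
  exact h1.symm

-- (job 32062)
theorem rank_sub {α β : Type} [Fintype α] [DecidableEq α] [Fintype β] [DecidableEq β]
    (K : Matrix α β (ZMod 3)) (t : ℕ) (h : t + 1 ≤ K.rank) :
    ∃ E : Matrix β (Fin (t + 1)) (ZMod 3), ∀ v : Fin (t + 1) → ZMod 3, v ≠ 0 →
      (K * E).mulVec v ≠ 0 := by
  have hR : t + 1 ≤ Module.finrank (ZMod 3) (LinearMap.range K.mulVecLin) := h
  obtain ⟨w, hw⟩ : ∃ w : Fin (t + 1) → LinearMap.range K.mulVecLin,
      LinearIndependent (ZMod 3) w := exists_linearIndependent_of_le_finrank hR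
  choose x hx using fun i => (w i).2
  refine ⟨Matrix.of (fun b i => x i b), fun v hv h0 => hv ?_⟩
  have h1 : ∑ i, v i • w i = 0 := by
    apply Subtype.ext
    have h2 : (Matrix.of (fun b i => x i b) : Matrix β (Fin (t + 1)) (ZMod 3)).mulVec v
        = ∑ i, v i • x i := by
      funext b
      simp [Matrix.mulVec, dotProduct, Finset.sum_apply, mul_comm]
    rw [← Matrix.mulVec_mulVec, h2] at h0
    have h3 : K.mulVecLin (∑ i, v i • x i) = 0 := h0
    rw [map_sum] at h3
    simp only [map_smul, hx] at h3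
    simpa using h3
  funext i
  exact Fintype.linearIndependent_iff.mp hw v h1 i

-- (job 32055)
theorem rm_one {α β : Type} [Fintype α] [DecidableEq α] [Fintype β] [DecidableEq β]
    (K : Matrix α β (ZMod 3)) (t : ℕ) (h : t + 1 ≤ K.rank) :
    27 * (univ.filter (fun P : Matrix (Fin (t + 4)) α (ZMod 3) => (P * K).rank ≤ t)).card ≤
      Fintype.card (Matrix (Fin (t + 4)) α (ZMod 3)) := by
  classical
  obtain ⟨E, hE⟩ := rank_sub K t h
  have hsub : (univ.filter (fun P : Matrix (Fin (t + 4)) α (ZMod 3) => (P * K).rank ≤ t)) ⊆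
      (univ.filter (fun v : Fin (t + 1) → ZMod 3 => v ≠ 0)).biUnion (fun v =>
        univ.filter (fun P : Matrix (Fin (t + 4)) α (ZMod 3) => P.mulVec ((K * E).mulVec v) = 0)) := by
    intro P hP
    simp only [mem_filter, mem_univ, true_and] at hP
    have hr : (P * K * E).rank ≤ t := le_trans (Matrix.rank_mul_le_left _ _) hP
    have hex : ∃ v : Fin (t + 1) → ZMod 3, v ≠ 0 ∧ (P * K * E).mulVec v = 0 := by
      by_contra hcon
      push Not at hcon
      have hinj : Function.Injective (P * K * E).mulVecLin := by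
        rw [← LinearMap.ker_eq_bot, LinearMap.ker_eq_bot']
        intro v hv
        by_contra hv0
        exact hcon v hv0 (by rw [← Matrix.mulVecLin_apply]; exact hv)
      have hrk : (P * K * E).rank = t + 1 := by
        rw [Matrix.rank, LinearMap.finrank_range_of_inj hinj]
        simp
      omega
    obtain ⟨v, hv0, hv⟩ := hex
    simp only [mem_biUnion, mem_filter, mem_univ, true_and]
    refine ⟨v, hv0, ?_⟩
    rw [Matrix.mulVec_mulVec, ← Matrix.mul_assoc]
    exact hv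
  have hcard := (card_le_card hsub).trans card_biUnion_le
  set N := Fintype.card (Matrix (Fin (t + 4)) α (ZMod 3)) with hN
  have hone : ∀ v ∈ (univ.filter (fun v : Fin (t + 1) → ZMod 3 => v ≠ 0)),
      3 ^ (t + 4) * (univ.filter (fun P : Matrix (Fin (t + 4)) α (ZMod 3) =>
        P.mulVec ((K * E).mulVec v) = 0)).card = N := by
    intro v hv
    simp only [mem_filter, mem_univ, true_and] at hv
    exact mat_kernel_count (t + 4) _ (hE v hv)
  have h1 : 3 ^ (t + 4) * (univ.filter (fun P : Matrix (Fin (t + 4)) α (ZMod 3) => (P * K).rank ≤ t)).card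
      ≤ 3 ^ (t + 1) * N := by
    calc _ ≤ 3 ^ (t + 4) * ∑ v ∈ (univ.filter (fun v : Fin (t + 1) → ZMod 3 => v ≠ 0)),
          (univ.filter (fun P : Matrix (Fin (t + 4)) α (ZMod 3) =>
            P.mulVec ((K * E).mulVec v) = 0)).card := Nat.mul_le_mul_left _ hcard
      _ = ∑ v ∈ (univ.filter (fun v : Fin (t + 1) → ZMod 3 => v ≠ 0)), N := by
          rw [mul_sum]; exact sum_congr rfl hone
      _ = (univ.filter (fun v : Fin (t + 1) → ZMod 3 => v ≠ 0)).card * N := by
          rw [sum_const, smul_eq_mul]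
      _ ≤ 3 ^ (t + 1) * N := by
          refine Nat.mul_le_mul_right _ ?_
          refine (card_le_univ _).trans ?_
          simp [ZMod.card]
  have h3 : (3:ℕ) ^ (t + 4) = 3 ^ (t + 1) * 27 := by
    rw [show t + 4 = (t + 1) + 3 by ring, pow_add]; norm_num
  rw [h3, mul_assoc] at h1
  exact Nat.le_of_mul_le_mul_left h1 (by positivity)

-- (job 32054)
theorem rm_two_pt {α β : Type} [Fintype α] [DecidableEq α] [Fintype β] [DecidableEq β]
    (K : Matrix α β (ZMod 3)) (t : ℕ) (P : Matrix (Fin (t + 4)) α (ZMod 3)) :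
    27 * (univ.filter (fun Q : Matrix (Fin (t + 4)) β (ZMod 3) =>
        (P * K * Q.transpose).rank ≤ t)).card ≤
      Fintype.card (Matrix (Fin (t + 4)) β (ZMod 3)) +
        27 * ((if (P * K).rank ≤ t then 1 else 0) *
          Fintype.card (Matrix (Fin (t + 4)) β (ZMod 3))) := by
  by_cases hP : (P * K).rank ≤ t
  · rw [if_pos hP, one_mul]
    have h1 : (univ.filter (fun Q : Matrix (Fin (t + 4)) β (ZMod 3) =>
        (P * K * Q.transpose).rank ≤ t)).card ≤
        Fintype.card (Matrix (Fin (t + 4)) β (ZMod 3)) := by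
      rw [← Finset.card_univ]
      exact Finset.card_le_card (Finset.filter_subset _ _)
    omega
  · rw [if_neg hP, zero_mul, mul_zero, add_zero]
    have h1 : t + 1 ≤ ((P * K).transpose).rank := by
      rw [Matrix.rank_transpose]
      omega
    have h2 := rm_one (P * K).transpose t h1
    have h3 : (univ.filter (fun Q : Matrix (Fin (t + 4)) β (ZMod 3) =>
        (P * K * Q.transpose).rank ≤ t)) =
        (univ.filter (fun Q : Matrix (Fin (t + 4)) β (ZMod 3) =>
        (Q * (P * K).transpose).rank ≤ t)) := by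
      apply Finset.filter_congr
      intro Q _
      have h4 : Q * (P * K).transpose = (P * K * Q.transpose).transpose := by
        rw [Matrix.transpose_mul (P * K) Q.transpose, Matrix.transpose_transpose]
      rw [h4, Matrix.rank_transpose]
    rw [h3]
    exact h2

theorem rm_two {α β : Type} [Fintype α] [DecidableEq α] [Fintype β] [DecidableEq β]
    (K : Matrix α β (ZMod 3)) (t : ℕ) (h : t + 1 ≤ K.rank) :
    27 * (univ.filter (fun PQ : Matrix (Fin (t + 4)) α (ZMod 3) × Matrix (Fin (t + 4)) β (ZMod 3) =>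
        (PQ.1 * K * PQ.2.transpose).rank ≤ t)).card ≤
      2 * Fintype.card (Matrix (Fin (t + 4)) α (ZMod 3) × Matrix (Fin (t + 4)) β (ZMod 3)) := by
  have h1 := rm_one K t h
  have e1 : (univ.filter (fun PQ : Matrix (Fin (t + 4)) α (ZMod 3) × Matrix (Fin (t + 4)) β (ZMod 3) =>
        (PQ.1 * K * PQ.2.transpose).rank ≤ t)).card =
      ∑ P : Matrix (Fin (t + 4)) α (ZMod 3),
        (univ.filter (fun Q : Matrix (Fin (t + 4)) β (ZMod 3) =>
          (P * K * Q.transpose).rank ≤ t)).card := by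
    rw [Finset.card_filter, Fintype.sum_prod_type]
    apply Finset.sum_congr rfl
    intro P _
    rw [Finset.card_filter]
  rw [e1, Finset.mul_sum]
  calc ∑ P : Matrix (Fin (t + 4)) α (ZMod 3),
        27 * (univ.filter (fun Q : Matrix (Fin (t + 4)) β (ZMod 3) =>
          (P * K * Q.transpose).rank ≤ t)).card
      ≤ ∑ P : Matrix (Fin (t + 4)) α (ZMod 3),
        (Fintype.card (Matrix (Fin (t + 4)) β (ZMod 3)) +
        27 * ((if (P * K).rank ≤ t then 1 else 0) *
          Fintype.card (Matrix (Fin (t + 4)) β (ZMod 3)))) :=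
        Finset.sum_le_sum (fun P _ => rm_two_pt K t P)
    _ = Fintype.card (Matrix (Fin (t + 4)) α (ZMod 3)) *
          Fintype.card (Matrix (Fin (t + 4)) β (ZMod 3)) +
        (27 * (univ.filter (fun P : Matrix (Fin (t + 4)) α (ZMod 3) => (P * K).rank ≤ t)).card) *
          Fintype.card (Matrix (Fin (t + 4)) β (ZMod 3)) := by
        rw [Finset.sum_add_distrib, Finset.sum_const, Finset.card_univ, smul_eq_mul,
          ← Finset.mul_sum, ← Finset.sum_mul, Finset.card_filter, mul_assoc]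
    _ ≤ Fintype.card (Matrix (Fin (t + 4)) α (ZMod 3)) *
          Fintype.card (Matrix (Fin (t + 4)) β (ZMod 3)) +
        Fintype.card (Matrix (Fin (t + 4)) α (ZMod 3)) *
          Fintype.card (Matrix (Fin (t + 4)) β (ZMod 3)) :=
        Nat.add_le_add_left (Nat.mul_le_mul_right _ h1) _
    _ = 2 * Fintype.card (Matrix (Fin (t + 4)) α (ZMod 3) × Matrix (Fin (t + 4)) β (ZMod 3)) := by
        rw [Fintype.card_prod]
        ring

-- (job 32063)
theorem rank_diag {J R : Type} [Fintype J] [DecidableEq J] [Fintype R]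
    (b : J → R → ZMod 3) (d : J → ZMod 3) :
    (Matrix.of (fun (a : R) (j : J) => b j a * d j)).rank = rkf b {j | d j ≠ 0} := by
  haveI : Fact (Nat.Prime 3) := ⟨Nat.prime_three⟩
  rw [Matrix.rank_eq_finrank_span_cols]
  unfold rkf
  have hcol : ∀ j, (Matrix.of (fun (a : R) (j : J) => b j a * d j)).col j = d j • b j := by
    intro j
    funext a
    show b j a * d j = d j * b j a
    exact mul_comm _ _
  have h : Submodule.span (ZMod 3)
      (Set.range (Matrix.of (fun (a : R) (j : J) => b j a * d j)).col) =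
      Submodule.span (ZMod 3) (b '' {j | d j ≠ 0}) := by
    apply le_antisymm
    · rw [Submodule.span_le]
      rintro _ ⟨j, rfl⟩
      rw [hcol]
      by_cases hd : d j = 0
      · rw [hd, zero_smul]
        exact Submodule.zero_mem _
      · exact Submodule.smul_mem _ _ (Submodule.subset_span ⟨j, hd, rfl⟩)
    · rw [Submodule.span_le]
      rintro _ ⟨j, hd, rfl⟩
      have hd' : d j ≠ 0 := hd
      have e : b j = (d j)⁻¹ • (d j • b j) := by
        rw [smul_smul, inv_mul_cancel₀ hd', one_smul]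
      rw [e]
      refine Submodule.smul_mem _ _ (Submodule.subset_span ?_)
      exact ⟨j, hcol j⟩
  rw [h]

/-- encoding of a matrix over `ZMod 3` by bits -/
-- (job 32069)
theorem encode_exists (L : ℕ) : ∃ (enc : Matrix (Fin L) (Fin L) (ZMod 3) → List Bool)
    (dec : List Bool → Matrix (Fin L) (Fin L) (ZMod 3)),
    (∀ N, (enc N).length ≤ 2 * L ^ 2) ∧ ∀ N, dec (enc N) = N := by
  have hcard : Fintype.card (Matrix (Fin L) (Fin L) (ZMod 3)) ≤
      Fintype.card (Fin (2 * L ^ 2) → Bool) := by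
    have h1 : Fintype.card (Matrix (Fin L) (Fin L) (ZMod 3)) = (3 ^ L) ^ L := by
      rw [show Fintype.card (Matrix (Fin L) (Fin L) (ZMod 3)) =
        Fintype.card (Fin L → Fin L → ZMod 3) from rfl]
      simp
    rw [h1]
    simp only [Fintype.card_pi, Fintype.card_bool, Finset.prod_const, Finset.card_univ,
      Fintype.card_fin]
    rw [← pow_mul, ← pow_two, pow_mul 2 2]
    exact Nat.pow_le_pow_left (by norm_num) _
  obtain ⟨e⟩ := Function.Embedding.nonempty_of_card_le hcard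
  have hinj : Function.Injective
      (fun N : Matrix (Fin L) (Fin L) (ZMod 3) => List.ofFn (e N)) := by
    intro N M h
    exact e.injective (List.ofFn_injective h)
  refine ⟨fun N => List.ofFn (e N), Function.invFun (fun N => List.ofFn (e N)), ?_, ?_⟩
  · intro N
    rw [List.length_ofFn]
  · intro N
    exact Function.leftInverse_invFun hinj N

-- (job 32052)
theorem oneway_upper_lift (a c : ZMod 2) :
    ((if a = 0 then (0 : ZMod 3) else 1) - (if c = 0 then (0 : ZMod 3) else 1) ≠ 0) ↔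
      a + c ≠ 0 := by
  revert a c
  decide

theorem oneway_upper {J R : Type} [Fintype J] [DecidableEq J] [Fintype R] [DecidableEq R]
    (b : J → R → ZMod 3) (t : ℕ) :
    OneWay (fun x y : J → ZMod 2 => fJ b t (x + y)) (2 * (t + 4) ^ 2) := by
  obtain ⟨enc, dec, hlen, hdec⟩ := encode_exists (t + 4)
  set lft : ZMod 2 → ZMod 3 := fun a => if a = 0 then (0 : ZMod 3) else 1 with hlft
  set K : (J → ZMod 3) → Matrix R J (ZMod 3) :=
    fun d => Matrix.of (fun (a : R) (j : J) => b j a * d j) with hK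
  have hcardpos : (0 : ℝ) < (Fintype.card (Matrix (Fin (t + 4)) R (ZMod 3) ×
      Matrix (Fin (t + 4)) J (ZMod 3)) : ℝ) := by
    exact_mod_cast Fintype.card_pos
  have key : ∀ (x y : J → ZMod 2) (ω : Matrix (Fin (t + 4)) R (ZMod 3) ×
      Matrix (Fin (t + 4)) J (ZMod 3)),
      dec (enc (ω.1 * K (fun j => lft (x j)) * ω.2.transpose)) -
        ω.1 * K (fun j => lft (y j)) * ω.2.transpose =
      ω.1 * K (fun j => lft (x j) - lft (y j)) * ω.2.transpose := by
    intro x y ω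
    rw [hdec, ← Matrix.sub_mul, ← Matrix.mul_sub]
    congr 2
    ext a j
    simp [hK, mul_sub]
  refine ⟨Matrix (Fin (t + 4)) R (ZMod 3) × Matrix (Fin (t + 4)) J (ZMod 3), inferInstance,
    fun _ => (1 : ℝ) / (Fintype.card (Matrix (Fin (t + 4)) R (ZMod 3) ×
      Matrix (Fin (t + 4)) J (ZMod 3)) : ℝ),
    fun ω x => enc (ω.1 * K (fun j => lft (x j)) * ω.2.transpose),
    fun ω m y => decide ((dec m - ω.1 * K (fun j => lft (y j)) * ω.2.transpose).rank ≤ t),
    ?_, ?_, ?_, ?_⟩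
  · intro ω
    positivity
  · rw [Finset.sum_const, Finset.card_univ, nsmul_eq_mul]
    field_simp
  · intro ω x
    exact hlen _
  · intro x y
    have hset : {j | (fun j => lft (x j) - lft (y j)) j ≠ 0} = {j | (x + y) j ≠ 0} := by
      ext j
      simp only [Set.mem_setOf_eq, hlft, Pi.add_apply]
      exact oneway_upper_lift (x j) (y j)
    have hrk : (K (fun j => lft (x j) - lft (y j))).rank = rkf b {j | (x + y) j ≠ 0} := by
      rw [← hset]
      exact rank_diag b _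
    have hf : fJ b t (x + y) =
        decide ((K (fun j => lft (x j) - lft (y j))).rank ≤ t) := by
      rw [hrk]; rfl
    rw [Finset.sum_const, nsmul_eq_mul]
    by_cases hle : (K (fun j => lft (x j) - lft (y j))).rank ≤ t
    · have hfil : (univ.filter (fun ω : Matrix (Fin (t + 4)) R (ZMod 3) ×
          Matrix (Fin (t + 4)) J (ZMod 3) =>
          decide ((dec (enc (ω.1 * K (fun j => lft (x j)) * ω.2.transpose)) -
            ω.1 * K (fun j => lft (y j)) * ω.2.transpose).rank ≤ t) = fJ b t (x + y))) = univ := by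
        apply Finset.filter_true_of_mem
        intro ω _
        rw [key x y ω, hf, decide_eq_decide]
        constructor
        · intro _; exact hle
        · intro _
          exact ((Matrix.rank_mul_le_left _ _).trans (Matrix.rank_mul_le_right _ _)).trans hle
      rw [hfil, Finset.card_univ]
      have : (Fintype.card (Matrix (Fin (t + 4)) R (ZMod 3) ×
        Matrix (Fin (t + 4)) J (ZMod 3)) : ℝ) * (1 / (Fintype.card (Matrix (Fin (t + 4)) R (ZMod 3) ×
        Matrix (Fin (t + 4)) J (ZMod 3)) : ℝ)) = 1 := by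
        field_simp
      rw [this]
      norm_num
    · have hge : t + 1 ≤ (K (fun j => lft (x j) - lft (y j))).rank := by omega
      have hbad := rm_two (K (fun j => lft (x j) - lft (y j))) t hge
      have hfil : (univ.filter (fun ω : Matrix (Fin (t + 4)) R (ZMod 3) ×
          Matrix (Fin (t + 4)) J (ZMod 3) =>
          decide ((dec (enc (ω.1 * K (fun j => lft (x j)) * ω.2.transpose)) -
            ω.1 * K (fun j => lft (y j)) * ω.2.transpose).rank ≤ t) = fJ b t (x + y))) =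
          univ.filter (fun ω : Matrix (Fin (t + 4)) R (ZMod 3) ×
          Matrix (Fin (t + 4)) J (ZMod 3) => ¬
            ((ω.1 * K (fun j => lft (x j) - lft (y j)) * ω.2.transpose).rank ≤ t)) := by
        apply Finset.filter_congr
        intro ω _
        rw [key x y ω, hf]
        simp only [hle, decide_false, decide_eq_false_iff_not]
      rw [hfil]
      have hsum := Finset.card_filter_add_card_filter_not (s := (univ : Finset (Matrix (Fin (t + 4)) R (ZMod 3) ×
          Matrix (Fin (t + 4)) J (ZMod 3)))) (fun ω => 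
            ((ω.1 * K (fun j => lft (x j) - lft (y j)) * ω.2.transpose).rank ≤ t))
      rw [Finset.card_univ] at hsum
      have h1 : (27 : ℝ) * ((univ.filter (fun PQ : Matrix (Fin (t + 4)) R (ZMod 3) ×
          Matrix (Fin (t + 4)) J (ZMod 3) =>
        (PQ.1 * K (fun j => lft (x j) - lft (y j)) * PQ.2.transpose).rank ≤ t)).card : ℝ) ≤
        2 * (Fintype.card (Matrix (Fin (t + 4)) R (ZMod 3) ×
          Matrix (Fin (t + 4)) J (ZMod 3)) : ℝ) := by
        exact_mod_cast hbad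
      have h2 : ((univ.filter (fun PQ : Matrix (Fin (t + 4)) R (ZMod 3) ×
          Matrix (Fin (t + 4)) J (ZMod 3) =>
        (PQ.1 * K (fun j => lft (x j) - lft (y j)) * PQ.2.transpose).rank ≤ t)).card : ℝ) +
          ((univ.filter (fun PQ : Matrix (Fin (t + 4)) R (ZMod 3) ×
          Matrix (Fin (t + 4)) J (ZMod 3) => ¬
        (PQ.1 * K (fun j => lft (x j) - lft (y j)) * PQ.2.transpose).rank ≤ t)).card : ℝ) =
          (Fintype.card (Matrix (Fin (t + 4)) R (ZMod 3) ×
          Matrix (Fin (t + 4)) J (ZMod 3)) : ℝ) := by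
        exact_mod_cast hsum
      rw [mul_one_div, le_div_iff₀ hcardpos]
      linarith

/-! ### the lower bound -/

-- (job 32068)
theorem dual_sep {k : ℕ} (A : Submodule (ZMod 2) (Fin k → ZMod 2)) (w : Fin k → ZMod 2)
    (hw : w ∉ A) : ∃ l : Fin k → ZMod 2, (∀ a ∈ A, l ⬝ᵥ a = 0) ∧ l ⬝ᵥ w = 1 := by
  obtain ⟨φ, hφw, hφA⟩ := Submodule.exists_le_ker_of_notMem (p := A) hw
  have hrep : ∀ x : Fin k → ZMod 2, (fun j => φ (Pi.single j 1)) ⬝ᵥ x = φ x := by
    intro x
    rw [LinearMap.pi_apply_eq_sum_univ φ x]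
    unfold dotProduct
    refine Finset.sum_congr rfl fun i _ => ?_
    have h1 : (Pi.single i 1 : Fin k → ZMod 2) = fun j => if i = j then 1 else 0 := by
      funext j
      rw [Pi.single_apply]
      by_cases h : i = j
      · rw [if_pos h, if_pos h.symm]
      · rw [if_neg h, if_neg (fun h' => h h'.symm)]
    rw [smul_eq_mul, mul_comm, ← h1]
  refine ⟨fun j => φ (Pi.single j 1), ?_, ?_⟩
  · intro a ha
    rw [hrep]
    exact hφA ha
  · rw [hrep]
    have key : ∀ z : ZMod 2, z ≠ 0 → z = 1 := by decide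
    exact key _ hφw

-- (job 32060)
theorem hadamard_card {ι Q : Type} [Fintype Q] {k : ℕ} (G : Finset ι)
    (l c : ι → Fin k → ZMod 2) (v : ι → Q → ZMod 2)
    (h1 : ∀ i ∈ G, (l i ⬝ᵥ c i) * (v i ⬝ᵥ v i) = 1)
    (h0 : ∀ i ∈ G, ∀ j ∈ G, i ≠ j → (l i ⬝ᵥ c j) * (v i ⬝ᵥ v j) = 0) :
    G.card ≤ k * Fintype.card Q := by
  classical
  let a : ι → (Fin k × Q → ZMod 2) := fun i p => l i p.1 * v i p.2
  let b : ι → (Fin k × Q → ZMod 2) := fun i p => c i p.1 * v i p.2
  have hab : ∀ i j, a i ⬝ᵥ b j = (l i ⬝ᵥ c j) * (v i ⬝ᵥ v j) := by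
    intro i j
    simp only [dotProduct, a, b, Fintype.sum_prod_type, Finset.sum_mul_sum]
    apply sum_congr rfl
    intro x _
    apply sum_congr rfl
    intro y _
    ring
  have hli : LinearIndependent (ZMod 2) (fun i : G => a i) := by
    rw [Fintype.linearIndependent_iff]
    intro g hg j
    have h2 : (∑ i : G, g i • a i) ⬝ᵥ b j = 0 := by
      rw [hg, zero_dotProduct]
    rw [sum_dotProduct] at h2
    simp only [smul_dotProduct, hab] at h2
    rw [Finset.sum_eq_single j] at h2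
    · rw [h1 j j.2] at h2
      simpa using h2
    · intro i _ hij
      rw [h0 i i.2 j j.2 (fun h => hij (Subtype.ext h))]
      simp
    · intro h
      exact (h (Finset.mem_univ j)).elim
  have h3 := hli.fintype_card_le_finrank
  simpa using h3

/-- vectors supported on `T × Fin (c+1)` -/
def U {ι : Type} [Fintype ι] [DecidableEq ι] (c : ℕ) (T : Finset ι) :
    Finset (ι × Fin (c + 1) → ZMod 2) :=
  univ.filter (fun u => ∀ q : ι × Fin (c + 1), q.1 ∉ T → u q = 0)

-- (job 32058)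
theorem untouched_one {ι : Type} [Fintype ι] [DecidableEq ι] (c : ℕ) (T : Finset ι)
    (j : ι) (hj : j ∈ T) :
    2 ^ (c + 1) * ((U c T).filter (fun u => ∀ s, u (j, s) = 0)).card ≤ (U c T).card := by
  classical
  have h1 : ((univ : Finset (Fin (c + 1) → ZMod 2)) ×ˢ
      ((U c T).filter (fun u => ∀ s, u (j, s) = 0))).card ≤ (U c T).card := by
    apply Finset.card_le_card_of_injOn
      (fun p : (Fin (c + 1) → ZMod 2) × (ι × Fin (c + 1) → ZMod 2) =>
        fun q : ι × Fin (c + 1) => if q.1 = j then p.1 q.2 else p.2 q)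
    · rintro ⟨w, u⟩ hp
      have hp' := Finset.mem_coe.1 hp
      rw [Finset.mem_product, Finset.mem_filter] at hp'
      have hu : u ∈ U c T := hp'.2.1
      unfold U at hu
      rw [Finset.mem_filter] at hu
      rw [Finset.mem_coe]
      unfold U
      rw [Finset.mem_filter]
      refine ⟨Finset.mem_univ _, fun q hq => ?_⟩
      have hqj : q.1 ≠ j := fun h => hq (h ▸ hj)
      dsimp only
      rw [if_neg hqj]
      exact hu.2 q hq
    · rintro ⟨w, u⟩ hp ⟨w', u'⟩ hp' heq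
      have hp1 := Finset.mem_coe.1 hp
      have hp2 := Finset.mem_coe.1 hp'
      rw [Finset.mem_product, Finset.mem_filter] at hp1 hp2
      dsimp only at heq
      have hw : w = w' := by
        funext s
        have := congrFun heq (j, s)
        simpa using this
      have hu : u = u' := by
        funext q
        by_cases hq : q.1 = j
        · have e : q = (j, q.2) := by rw [← hq]
          rw [e]
          exact (hp1.2.2 q.2).trans (hp2.2.2 q.2).symm
        · have := congrFun heq q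
          simpa [hq] using this
      rw [hw, hu]
  rw [Finset.card_product, Finset.card_univ] at h1
  have h2 : Fintype.card (Fin (c + 1) → ZMod 2) = 2 ^ (c + 1) := by
    rw [Fintype.card_fun, ZMod.card, Fintype.card_fin]
  rw [h2] at h1
  exact h1

theorem untouched {ι : Type} [Fintype ι] [DecidableEq ι] (c : ℕ) (T : Finset ι)
    (hc : 16 * Fintype.card ι ≤ 2 ^ (c + 1)) :
    16 * ((U c T).filter (fun u => ∃ j ∈ T, ∀ s, u (j, s) = 0)).card ≤ (U c T).card := by
  classical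
  have hsub : (U c T).filter (fun u => ∃ j ∈ T, ∀ s, u (j, s) = 0) ⊆
      T.biUnion (fun j => (U c T).filter (fun u => ∀ s, u (j, s) = 0)) := by
    intro u hu
    rw [Finset.mem_filter] at hu
    obtain ⟨hu1, j, hj, hu2⟩ := hu
    rw [Finset.mem_biUnion]
    exact ⟨j, hj, Finset.mem_filter.2 ⟨hu1, hu2⟩⟩
  have h1 : ((U c T).filter (fun u => ∃ j ∈ T, ∀ s, u (j, s) = 0)).card ≤
      ∑ j ∈ T, ((U c T).filter (fun u => ∀ s, u (j, s) = 0)).card :=
    (Finset.card_le_card hsub).trans Finset.card_biUnion_le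
  have h2 : 2 ^ (c + 1) * ((U c T).filter (fun u => ∃ j ∈ T, ∀ s, u (j, s) = 0)).card ≤
      Fintype.card ι * (U c T).card := by
    calc 2 ^ (c + 1) * ((U c T).filter (fun u => ∃ j ∈ T, ∀ s, u (j, s) = 0)).card
        ≤ 2 ^ (c + 1) * ∑ j ∈ T, ((U c T).filter (fun u => ∀ s, u (j, s) = 0)).card :=
          Nat.mul_le_mul_left _ h1
      _ = ∑ j ∈ T, 2 ^ (c + 1) * ((U c T).filter (fun u => ∀ s, u (j, s) = 0)).card :=
          Finset.mul_sum _ _ _
      _ ≤ ∑ j ∈ T, (U c T).card := Finset.sum_le_sum fun j hj => untouched_one c T j hj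
      _ = T.card * (U c T).card := by rw [Finset.sum_const, smul_eq_mul]
      _ ≤ Fintype.card ι * (U c T).card := Nat.mul_le_mul_right _ (Finset.card_le_univ T)
  rcases Nat.eq_zero_or_pos (Fintype.card ι) with h0 | hpos
  · have hT : T = ∅ := by
      rw [← Finset.card_eq_zero]
      have := Finset.card_le_univ T
      omega
    have hbad : (U c T).filter (fun u => ∃ j ∈ T, ∀ s, u (j, s) = 0) = ∅ := by
      rw [Finset.filter_eq_empty_iff]
      rintro u _ ⟨j, hj, _⟩
      rw [hT] at hj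
      exact absurd hj (Finset.notMem_empty j)
    rw [hbad]
    simp
  · apply Nat.le_of_mul_le_mul_left _ hpos
    calc Fintype.card ι * (16 * ((U c T).filter (fun u => ∃ j ∈ T, ∀ s, u (j, s) = 0)).card)
        = (16 * Fintype.card ι) * ((U c T).filter (fun u => ∃ j ∈ T, ∀ s, u (j, s) = 0)).card := by
          ring
      _ ≤ 2 ^ (c + 1) * ((U c T).filter (fun u => ∃ j ∈ T, ∀ s, u (j, s) = 0)).card :=
          Nat.mul_le_mul_right _ hc
      _ ≤ Fintype.card ι * (U c T).card := h2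

/-- the set of indices orthogonal to `i` -/
noncomputable def orthT {ι R : Type} [Fintype ι] [DecidableEq ι] [Fintype R]
    (B : ι → R → ZMod 3) (i : ι) : Finset ι :=
  univ.filter (fun j => B i ⬝ᵥ B j = 0)

-- (job 32083)
theorem rank_low {ι R : Type} [Fintype ι] [DecidableEq ι] [Fintype R] [DecidableEq R]
    (B : ι → R → ZMod 3) (c t : ℕ) (i : ι)
    (ht : rkf B (orthT B i : Set ι) = t) (u : ι × Fin (c + 1) → ZMod 2)
    (hu : u ∈ U c (orthT B i)) :
    fJ (fun q : ι × Fin (c + 1) => B q.1) t u = true := by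
  unfold fJ
  rw [decide_eq_true_iff]
  rw [← ht]
  unfold rkf
  apply Submodule.finrank_mono
  apply Submodule.span_mono
  rintro _ ⟨q, hq, rfl⟩
  refine ⟨q.1, ?_, rfl⟩
  by_contra hn
  apply hq
  have h2 := (Finset.mem_filter.mp hu).2
  exact h2 q (fun h => hn (by exact_mod_cast h))

-- (job 32059)
theorem rank_high_perp {ι R : Type} [Fintype ι] [DecidableEq ι] [Fintype R] [DecidableEq R]
    (B : ι → R → ZMod 3) (i : ι) (w : R → ZMod 3)
    (hw : w ∈ Submodule.span (ZMod 3) (B '' (orthT B i : Set ι))) : B i ⬝ᵥ w = 0 := by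
  induction hw using Submodule.span_induction with
  | mem x hx =>
    obtain ⟨j, hj, rfl⟩ := hx
    have hj' : j ∈ orthT B i := hj
    exact (Finset.mem_filter.mp hj').2
  | zero => exact dotProduct_zero _
  | add x y _ _ hx hy => rw [dotProduct_add, hx, hy, add_zero]
  | smul a x _ hx => rw [dotProduct_smul, hx, smul_zero]

theorem rank_high {ι R : Type} [Fintype ι] [DecidableEq ι] [Fintype R] [DecidableEq R]
    (B : ι → R → ZMod 3) (c t : ℕ) (i : ι) (hi : B i ⬝ᵥ B i ≠ 0)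
    (ht : rkf B (orthT B i : Set ι) = t) (u : ι × Fin (c + 1) → ZMod 2)
    (hu : u ∈ U c (orthT B i)) (htouch : ¬ ∃ j ∈ orthT B i, ∀ s, u (j, s) = 0) :
    fJ (fun q : ι × Fin (c + 1) => B q.1) t (u + Pi.single (i, 0) 1) = false := by
  have hu' : ∀ q : ι × Fin (c + 1), q.1 ∉ orthT B i → u q = 0 := (Finset.mem_filter.mp hu).2
  have hiT : i ∉ orthT B i := fun h => hi (Finset.mem_filter.mp h).2
  push Not at htouch
  unfold fJ
  refine decide_eq_false ?_
  rw [not_le]
  unfold rkf at ht ⊢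
  rw [← ht]
  refine Submodule.finrank_lt_finrank_of_lt ?_
  have hBi : B i ∈ Submodule.span (ZMod 3) ((fun q : ι × Fin (c + 1) => B q.1) ''
      {j | (u + Pi.single (i, 0) 1 : ι × Fin (c + 1) → ZMod 2) j ≠ 0}) := by
    refine Submodule.subset_span ⟨(i, 0), ?_, rfl⟩
    show (u + Pi.single (i, 0) 1 : ι × Fin (c + 1) → ZMod 2) (i, 0) ≠ 0
    rw [Pi.add_apply, hu' (i, 0) hiT, Pi.single_eq_same, zero_add]
    exact one_ne_zero
  refine lt_of_le_of_ne ?_ ?_
  · rw [Submodule.span_le]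
    rintro _ ⟨j, hj, rfl⟩
    obtain ⟨s, hs⟩ := htouch j hj
    refine Submodule.subset_span ⟨(j, s), ?_, rfl⟩
    show (u + Pi.single (i, 0) 1 : ι × Fin (c + 1) → ZMod 2) (j, s) ≠ 0
    have hne : ((j, s) : ι × Fin (c + 1)) ≠ (i, 0) := by
      intro h
      have h1 : j = i := congrArg Prod.fst h
      exact hiT (h1 ▸ hj)
    rw [Pi.add_apply, Pi.single_eq_of_ne hne, add_zero]
    exact hs
  · intro heq
    rw [← heq] at hBi
    exact hi (rank_high_perp B i (B i) hBi)

-- (job 32067)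
theorem coset_count {ι : Type} [Fintype ι] [DecidableEq ι] (c k : ℕ) (T : Finset ι)
    (φ : (ι × Fin (c + 1) → ZMod 2) →ₗ[ZMod 2] (Fin k → ZMod 2)) (g : (Fin k → ZMod 2) → Bool)
    (e : ι × Fin (c + 1) → ZMod 2) (u0 : ι × Fin (c + 1) → ZMod 2) (hu0 : u0 ∈ U c T)
    (he : φ e = φ u0) :
    ((U c T).filter (fun u => g (φ u) = true)).card +
      ((U c T).filter (fun u => g (φ (u + e)) = false)).card = (U c T).card := by
  classical
  have hmem : ∀ u, u ∈ U c T ↔ ∀ q : ι × Fin (c + 1), q.1 ∉ T → u q = 0 := by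
    intro u; simp [U]
  have hadd : ∀ u, u ∈ U c T → u + u0 ∈ U c T := by
    intro u hu
    rw [hmem] at hu ⊢
    intro q hq
    have h2 := (hmem u0).mp hu0 q hq
    show u q + u0 q = 0
    rw [hu q hq, h2, add_zero]
  have hinv : ∀ u : ι × Fin (c + 1) → ZMod 2, u + u0 + u0 = u := by
    intro u
    funext q
    show u q + u0 q + u0 q = u q
    rw [add_assoc, CharTwo.add_self_eq_zero, add_zero]
  have hphi : ∀ u, φ (u + e) = φ (u + u0) := by
    intro u
    rw [map_add, map_add, he]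
  have hcard : ((U c T).filter (fun u => g (φ (u + e)) = false)).card =
      ((U c T).filter (fun u => ¬ g (φ u) = true)).card := by
    refine Finset.card_nbij' (fun u => u + u0) (fun u => u + u0) ?_ ?_ ?_ ?_
    · intro u hu
      rw [Finset.mem_coe, Finset.mem_filter] at hu ⊢
      refine ⟨hadd u hu.1, ?_⟩
      have h2 := hu.2
      rw [hphi] at h2
      show ¬ g (φ (u + u0)) = true
      rw [h2]
      decide
    · intro u hu
      rw [Finset.mem_coe, Finset.mem_filter] at hu ⊢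
      refine ⟨hadd u hu.1, ?_⟩
      rw [hphi, hinv]
      exact Bool.eq_false_iff.mpr hu.2
    · intro u _
      exact hinv u
    · intro u _
      exact hinv u
  rw [hcard, Finset.card_filter_add_card_filter_not]

/-- number of indices that the linear map separates -/
-- (job 32057)
theorem good_card {ι R Q : Type} [Fintype ι] [DecidableEq ι] [Fintype R] [DecidableEq R]
    [Fintype Q] (B : ι → R → ZMod 3) (v : ι → Q → ZMod 2) (c k : ℕ)
    (hv : ∀ i, v i ⬝ᵥ v i = 1)
    (hBv : ∀ i j, i ≠ j → B i ⬝ᵥ B j = 0 ∨ v i ⬝ᵥ v j = 0)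
    (φ : (ι × Fin (c + 1) → ZMod 2) →ₗ[ZMod 2] (Fin k → ZMod 2)) (G : Finset ι)
    (hG : ∀ i ∈ G, ∀ u ∈ U c (orthT B i), φ (Pi.single (i, 0) 1) ≠ φ u) :
    G.card ≤ k * Fintype.card Q := by
  classical
  -- the submodule of vectors supported on `orthT B i`
  let V : ι → Submodule (ZMod 2) (ι × Fin (c + 1) → ZMod 2) := fun i =>
    { carrier := {u | ∀ q : ι × Fin (c + 1), q.1 ∉ orthT B i → u q = 0}
      zero_mem' := fun q _ => rfl
      add_mem' := by
        intro a b ha hb q hq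
        rw [Pi.add_apply, ha q hq, hb q hq, add_zero]
      smul_mem' := by
        intro r a ha q hq
        rw [Pi.smul_apply, ha q hq, smul_zero] }
  have hVU : ∀ i u, u ∈ V i ↔ u ∈ U c (orthT B i) := by
    intro i u
    constructor
    · intro h
      exact Finset.mem_filter.mpr ⟨Finset.mem_univ _, h⟩
    · intro h
      exact (Finset.mem_filter.mp h).2
  have hex : ∀ i, ∃ l : Fin k → ZMod 2, i ∈ G → (∀ u ∈ U c (orthT B i), l ⬝ᵥ φ u = 0) ∧
      l ⬝ᵥ φ (Pi.single (i, 0) 1) = 1 := by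
    intro i
    by_cases hi : i ∈ G
    · have hw : φ (Pi.single (i, 0) 1) ∉ (V i).map φ := by
        rintro ⟨u, hu, h⟩
        exact hG i hi u ((hVU i u).mp hu) h.symm
      obtain ⟨l, hl1, hl2⟩ := dual_sep _ _ hw
      refine ⟨l, fun _ => ⟨fun u hu => ?_, hl2⟩⟩
      exact hl1 _ ⟨u, (hVU i u).mpr hu, rfl⟩
    · exact ⟨0, fun h => absurd h hi⟩
  choose l hl using hex
  apply hadamard_card G l (fun j => φ (Pi.single (j, 0) 1)) v
  · intro i hi
    rw [(hl i hi).2, hv i, one_mul]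
  · intro i hi j hj hij
    rcases hBv i j hij with h | h
    · have hj' : j ∈ orthT B i := Finset.mem_filter.mpr ⟨Finset.mem_univ _, h⟩
      have hmem : (Pi.single (j, 0) 1 : ι × Fin (c + 1) → ZMod 2) ∈ U c (orthT B i) := by
        refine Finset.mem_filter.mpr ⟨Finset.mem_univ _, fun q hq => ?_⟩
        rw [Pi.single_apply, if_neg]
        rintro rfl
        exact hq hj'
      rw [(hl i hi).1 _ hmem, zero_mul]
    · rw [h, mul_zero]

/-- the success probability of the two distributions attached to `i` -/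
noncomputable def succ {ι : Type} [Fintype ι] [DecidableEq ι] (c k : ℕ) (T : Finset ι)
    (φ : (ι × Fin (c + 1) → ZMod 2) →ₗ[ZMod 2] (Fin k → ZMod 2)) (g : (Fin k → ZMod 2) → Bool)
    (e : ι × Fin (c + 1) → ZMod 2) : ℝ :=
  ((((U c T).filter (fun u => g (φ u) = true)).card : ℝ) +
      (((U c T).filter (fun u => g (φ (u + e)) = false)).card : ℝ)) / ((U c T).card : ℝ)

-- (job 32087)
theorem succ_le_two {ι : Type} [Fintype ι] [DecidableEq ι] (c k : ℕ) (T : Finset ι)
    (φ : (ι × Fin (c + 1) → ZMod 2) →ₗ[ZMod 2] (Fin k → ZMod 2)) (g : (Fin k → ZMod 2) → Bool)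
    (e : ι × Fin (c + 1) → ZMod 2) : succ c k T φ g e ≤ 2 := by
  unfold succ
  have h1 : (((U c T).filter (fun u => g (φ u) = true)).card : ℝ) ≤ ((U c T).card : ℝ) := by
    exact_mod_cast Finset.card_filter_le _ _
  have h2 : (((U c T).filter (fun u => g (φ (u + e)) = false)).card : ℝ) ≤ ((U c T).card : ℝ) := by
    exact_mod_cast Finset.card_filter_le _ _
  rcases (Nat.cast_nonneg (α := ℝ) (U c T).card).eq_or_lt with h0 | h0
  · rw [← h0, div_zero]
    norm_num
  · rw [div_le_iff₀ h0]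
    linarith

-- (job 32053)
theorem succ_lower_swap {Ω V : Type} [Fintype Ω] (p : Ω → ℝ) (W : Finset V)
    (P : Ω → V → Prop) [∀ ω, DecidablePred (P ω)] [∀ u, DecidablePred (fun ω => P ω u)] :
    ∑ ω, p ω * ((W.filter (P ω)).card : ℝ) =
      ∑ u ∈ W, ∑ ω ∈ univ.filter (fun ω => P ω u), p ω := by
  have h1 : ∀ ω, p ω * ((W.filter (P ω)).card : ℝ) = ∑ u ∈ W, if P ω u then p ω else 0 := by
    intro ω
    rw [← Finset.sum_filter, Finset.sum_const, nsmul_eq_mul, mul_comm]
  rw [Finset.sum_congr rfl (fun ω _ => h1 ω), Finset.sum_comm]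
  refine Finset.sum_congr rfl fun u _ => ?_
  rw [Finset.sum_filter]

theorem succ_lower {ι : Type} [Fintype ι] [DecidableEq ι] (c k : ℕ) (T : Finset ι)
    (hc : 16 * Fintype.card ι ≤ 2 ^ (c + 1))
    (f : (ι × Fin (c + 1) → ZMod 2) → Bool) (e : ι × Fin (c + 1) → ZMod 2)
    (hf1 : ∀ u ∈ U c T, f u = true)
    (hf0 : ∀ u ∈ U c T, (¬ ∃ j ∈ T, ∀ s, u (j, s) = 0) → f (u + e) = false)
    (Ω : Type) [Fintype Ω] (p : Ω → ℝ)
    (φ : Ω → (ι × Fin (c + 1) → ZMod 2) →ₗ[ZMod 2] (Fin k → ZMod 2))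
    (g : Ω → (Fin k → ZMod 2) → Bool)
    (hp : ∀ ω, 0 ≤ p ω) (hp1 : ∑ ω, p ω = 1)
    (hx : ∀ x, 2 / 3 ≤ ∑ ω ∈ univ.filter (fun ω => g ω (φ ω x) = f x), p ω) :
    4 / 3 - 1 / 16 ≤ ∑ ω, p ω * succ c k T (φ ω) (g ω) e := by
  classical
  have h0U : (0 : ι × Fin (c + 1) → ZMod 2) ∈ U c T := by
    unfold U
    rw [Finset.mem_filter]
    exact ⟨Finset.mem_univ _, fun q _ => rfl⟩
  have hNpos : 0 < (U c T).card := Finset.card_pos.2 ⟨0, h0U⟩
  have hN : (0 : ℝ) < ((U c T).card : ℝ) := by exact_mod_cast hNpos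
  have e1 : ∑ ω, p ω * succ c k T (φ ω) (g ω) e =
      (∑ ω, p ω * (((U c T).filter (fun u => g ω (φ ω u) = true)).card : ℝ) +
        ∑ ω, p ω * (((U c T).filter (fun u => g ω (φ ω (u + e)) = false)).card : ℝ)) /
        ((U c T).card : ℝ) := by
    rw [← Finset.sum_add_distrib, Finset.sum_div]
    refine Finset.sum_congr rfl fun ω _ => ?_
    unfold succ
    ring
  have hA : 2 / 3 * ((U c T).card : ℝ) ≤
      ∑ ω, p ω * (((U c T).filter (fun u => g ω (φ ω u) = true)).card : ℝ) := by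
    rw [succ_lower_swap p (U c T) (fun ω u => g ω (φ ω u) = true)]
    have h2 : ∑ u ∈ U c T, (2 / 3 : ℝ) ≤
        ∑ u ∈ U c T, ∑ ω ∈ univ.filter (fun ω => g ω (φ ω u) = true), p ω := by
      refine Finset.sum_le_sum fun u hu => ?_
      have h3 := hx u
      rw [hf1 u hu] at h3
      exact h3
    rw [Finset.sum_const, nsmul_eq_mul] at h2
    linarith
  have hB : 2 / 3 * ((U c T).card : ℝ) - ((U c T).card : ℝ) / 16 ≤
      ∑ ω, p ω * (((U c T).filter (fun u => g ω (φ ω (u + e)) = false)).card : ℝ) := by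
    rw [succ_lower_swap p (U c T) (fun ω u => g ω (φ ω (u + e)) = false)]
    have hsub : (U c T).filter (fun u => ¬ ∃ j ∈ T, ∀ s, u (j, s) = 0) ⊆ U c T :=
      Finset.filter_subset _ _
    have h2 : ∑ u ∈ (U c T).filter (fun u => ¬ ∃ j ∈ T, ∀ s, u (j, s) = 0),
        ∑ ω ∈ univ.filter (fun ω => g ω (φ ω (u + e)) = false), p ω ≤
        ∑ u ∈ U c T, ∑ ω ∈ univ.filter (fun ω => g ω (φ ω (u + e)) = false), p ω :=
      Finset.sum_le_sum_of_subset_of_nonneg hsub
        (fun u _ _ => Finset.sum_nonneg fun ω _ => hp ω)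
    have h3 : ∑ u ∈ (U c T).filter (fun u => ¬ ∃ j ∈ T, ∀ s, u (j, s) = 0), (2 / 3 : ℝ) ≤
        ∑ u ∈ (U c T).filter (fun u => ¬ ∃ j ∈ T, ∀ s, u (j, s) = 0),
          ∑ ω ∈ univ.filter (fun ω => g ω (φ ω (u + e)) = false), p ω := by
      refine Finset.sum_le_sum fun u hu => ?_
      have hu' := Finset.mem_filter.1 hu
      have h4 := hx (u + e)
      rw [hf0 u hu'.1 hu'.2] at h4
      exact h4
    rw [Finset.sum_const, nsmul_eq_mul] at h3
    have h5 : ((U c T).filter (fun u => ∃ j ∈ T, ∀ s, u (j, s) = 0)).card +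
        ((U c T).filter (fun u => ¬ ∃ j ∈ T, ∀ s, u (j, s) = 0)).card = (U c T).card :=
      Finset.card_filter_add_card_filter_not _
    have h6 : 16 * ((U c T).filter (fun u => ∃ j ∈ T, ∀ s, u (j, s) = 0)).card ≤
        (U c T).card := by
      have := untouched c T hc
      convert this using 3
    have h5' : (((U c T).filter (fun u => ∃ j ∈ T, ∀ s, u (j, s) = 0)).card : ℝ) +
        (((U c T).filter (fun u => ¬ ∃ j ∈ T, ∀ s, u (j, s) = 0)).card : ℝ) =
        ((U c T).card : ℝ) := by exact_mod_cast h5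
    have h6' : 16 * (((U c T).filter (fun u => ∃ j ∈ T, ∀ s, u (j, s) = 0)).card : ℝ) ≤
        ((U c T).card : ℝ) := by exact_mod_cast h6
    linarith
  rw [e1, le_div_iff₀ hN]
  linarith

-- (job 32051)
theorem lower_t {ι R Q : Type} [Fintype ι] [DecidableEq ι] [Fintype R] [DecidableEq R]
    [Fintype Q] (B : ι → R → ZMod 3) (v : ι → Q → ZMod 2) (c t : ℕ)
    (hc : 16 * Fintype.card ι ≤ 2 ^ (c + 1)) (hB : ∀ i, B i ⬝ᵥ B i ≠ 0)
    (hv : ∀ i, v i ⬝ᵥ v i = 1)
    (hBv : ∀ i j, i ≠ j → B i ⬝ᵥ B j = 0 ∨ v i ⬝ᵥ v j = 0) (k : ℕ)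
    (h : LinA (fJ (fun q : ι × Fin (c + 1) => B q.1) t) k) :
    (univ.filter (fun i : ι => rkf B (orthT B i : Set ι) = t)).card ≤
      4 * (k * Fintype.card Q) := by
  classical
  obtain ⟨Ω, hΩ, p, φ, g, hp, hp1, hx⟩ := h
  set I := univ.filter (fun i : ι => rkf B (orthT B i : Set ι) = t) with hI
  have hlow : ∀ i ∈ I, (4 / 3 - 1 / 16 : ℝ) ≤
      ∑ ω, p ω * succ c k (orthT B i) (φ ω) (g ω) (Pi.single (i, 0) 1) := by
    intro i hi
    have ht : rkf B (orthT B i : Set ι) = t := (mem_filter.1 hi).2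
    exact succ_lower c k (orthT B i) hc (fJ (fun q : ι × Fin (c + 1) => B q.1) t)
      (Pi.single (i, 0) 1) (fun u hu => rank_low B c t i ht u hu)
      (fun u hu htouch => rank_high B c t i (hB i) ht u hu htouch) Ω p φ g hp hp1 hx
  have hup : ∀ ω, ∑ i ∈ I, succ c k (orthT B i) (φ ω) (g ω) (Pi.single (i, 0) 1) ≤
      (I.card : ℝ) + ((k * Fintype.card Q : ℕ) : ℝ) := by
    intro ω
    set G := I.filter (fun i => ∀ u ∈ U c (orthT B i), φ ω (Pi.single (i, 0) 1) ≠ φ ω u) with hG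
    have hGc : G.card ≤ k * Fintype.card Q :=
      good_card B v c k hv hBv (φ ω) G (fun i hi => (mem_filter.1 hi).2)
    have hone : ∀ i ∈ I, succ c k (orthT B i) (φ ω) (g ω) (Pi.single (i, 0) 1) ≤
        1 + (if i ∈ G then (1 : ℝ) else 0) := by
      intro i hi
      by_cases hiG : i ∈ G
      · rw [if_pos hiG]
        have h2 := succ_le_two c k (orthT B i) (φ ω) (g ω) (Pi.single (i, 0) 1)
        linarith
      · rw [if_neg hiG]
        have hex : ∃ u ∈ U c (orthT B i), φ ω (Pi.single (i, 0) 1) = φ ω u := by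
          by_contra hcon
          push Not at hcon
          exact hiG (mem_filter.2 ⟨hi, hcon⟩)
        obtain ⟨u0, hu0, he⟩ := hex
        have hcc := coset_count c k (orthT B i) (φ ω) (g ω) (Pi.single (i, 0) 1) u0 hu0 he
        have hpos : 0 < (U c (orthT B i)).card := card_pos.2 ⟨u0, hu0⟩
        have hpos' : ((U c (orthT B i)).card : ℝ) ≠ 0 := by
          exact_mod_cast hpos.ne'
        unfold succ
        rw [← Nat.cast_add, hcc, div_self hpos']
        norm_num
    have hGI : G ⊆ I := filter_subset _ _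
    have hsum : ∑ i ∈ I, (1 + (if i ∈ G then (1 : ℝ) else 0)) = (I.card : ℝ) + (G.card : ℝ) := by
      rw [sum_add_distrib, sum_const, nsmul_eq_mul, mul_one, ← sum_filter, sum_const,
        nsmul_eq_mul, mul_one]
      congr 3
      ext i
      simp only [mem_filter]
      exact ⟨fun h => h.2, fun h => ⟨hGI h, h⟩⟩
    have hGc' : (G.card : ℝ) ≤ ((k * Fintype.card Q : ℕ) : ℝ) := by exact_mod_cast hGc
    calc ∑ i ∈ I, succ c k (orthT B i) (φ ω) (g ω) (Pi.single (i, 0) 1)
        ≤ ∑ i ∈ I, (1 + (if i ∈ G then (1 : ℝ) else 0)) := sum_le_sum hone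
      _ = (I.card : ℝ) + (G.card : ℝ) := hsum
      _ ≤ _ := by linarith
  have htot : (I.card : ℝ) * (4 / 3 - 1 / 16) ≤
      ∑ ω, p ω * ∑ i ∈ I, succ c k (orthT B i) (φ ω) (g ω) (Pi.single (i, 0) 1) := by
    calc (I.card : ℝ) * (4 / 3 - 1 / 16) = ∑ i ∈ I, (4 / 3 - 1 / 16 : ℝ) := by
          rw [sum_const, nsmul_eq_mul]
      _ ≤ ∑ i ∈ I, ∑ ω, p ω * succ c k (orthT B i) (φ ω) (g ω) (Pi.single (i, 0) 1) :=
          sum_le_sum hlow
      _ = ∑ ω, ∑ i ∈ I, p ω * succ c k (orthT B i) (φ ω) (g ω) (Pi.single (i, 0) 1) := sum_comm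
      _ = _ := by
          refine sum_congr rfl fun ω _ => ?_
          rw [mul_sum]
  have htot2 : ∑ ω, p ω * ∑ i ∈ I, succ c k (orthT B i) (φ ω) (g ω) (Pi.single (i, 0) 1) ≤
      (I.card : ℝ) + ((k * Fintype.card Q : ℕ) : ℝ) := by
    calc ∑ ω, p ω * ∑ i ∈ I, succ c k (orthT B i) (φ ω) (g ω) (Pi.single (i, 0) 1)
        ≤ ∑ ω, p ω * ((I.card : ℝ) + ((k * Fintype.card Q : ℕ) : ℝ)) :=
          sum_le_sum fun ω _ => mul_le_mul_of_nonneg_left (hup ω) (hp ω)
      _ = _ := by rw [← sum_mul, hp1, one_mul]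
  have hfin : (I.card : ℝ) ≤ ((4 * (k * Fintype.card Q) : ℕ) : ℝ) := by
    have h0 : (0 : ℝ) ≤ (I.card : ℝ) := Nat.cast_nonneg _
    have h1 : (0 : ℝ) ≤ ((k * Fintype.card Q : ℕ) : ℝ) := Nat.cast_nonneg _
    have h2 : ((4 * (k * Fintype.card Q) : ℕ) : ℝ) = 4 * ((k * Fintype.card Q : ℕ) : ℝ) := by
      push_cast
      ring
    rw [h2]
    linarith
  exact_mod_cast hfin

-- (job 32065)
theorem lower_core {ι R Q : Type} [Fintype ι] [DecidableEq ι] [Fintype R] [DecidableEq R]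
    [Fintype Q] (B : ι → R → ZMod 3) (v : ι → Q → ZMod 2) (c : ℕ)
    (hc : 16 * Fintype.card ι ≤ 2 ^ (c + 1)) (hB : ∀ i, B i ⬝ᵥ B i ≠ 0)
    (hv : ∀ i, v i ⬝ᵥ v i = 1)
    (hBv : ∀ i j, i ≠ j → B i ⬝ᵥ B j = 0 ∨ v i ⬝ᵥ v j = 0) :
    ∃ t, t ≤ Fintype.card R ∧ ∀ k, LinA (fJ (fun q : ι × Fin (c + 1) => B q.1) t) k →
      Fintype.card ι ≤ 4 * (Fintype.card R + 1) * (k * Fintype.card Q) := by
  have hr : ∀ i, rkf B (orthT B i : Set ι) ≤ Fintype.card R := by
    intro i
    unfold rkf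
    refine (Submodule.finrank_le _).trans ?_
    rw [Module.finrank_fintype_fun_eq_card]
  have hmaps : Set.MapsTo (fun i : ι => rkf B (orthT B i : Set ι))
      ((univ : Finset ι) : Set ι) (Finset.range (Fintype.card R + 1) : Set ℕ) := by
    intro i _
    rw [Finset.mem_coe, Finset.mem_range]
    exact Nat.lt_succ_of_le (hr i)
  have hcard := Finset.card_eq_sum_card_fiberwise hmaps
  obtain ⟨t, ht, hmax⟩ := Finset.exists_max_image (Finset.range (Fintype.card R + 1))
    (fun t => (univ.filter (fun i : ι => rkf B (orthT B i : Set ι) = t)).card)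
    ⟨0, Finset.mem_range.2 (Nat.succ_pos _)⟩
  refine ⟨t, Nat.le_of_lt_succ (Finset.mem_range.1 ht), fun k hk => ?_⟩
  have h1 := lower_t B v c t hc hB hv hBv k hk
  have h2 : Fintype.card ι ≤ (Fintype.card R + 1) *
      (univ.filter (fun i : ι => rkf B (orthT B i : Set ι) = t)).card := by
    rw [← Finset.card_univ, hcard]
    refine (Finset.sum_le_card_nsmul _ _ _ (fun s hs => hmax s hs)).trans ?_
    rw [Finset.card_range, smul_eq_mul]
  calc Fintype.card ι ≤ _ := h2
    _ ≤ (Fintype.card R + 1) * (4 * (k * Fintype.card Q)) := Nat.mul_le_mul_left _ h1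
    _ = _ := by ring

/-! ### the set system -/

/-- subsets of `Fin m` of size `s` -/
abbrev Sub (m s : ℕ) : Type := {A : Finset (Fin m) // A.card = s}

/-- inclusion vectors -/
def inc (F : Type) [Zero F] [One F] {m s : ℕ} (a : ℕ) (A : Sub m s) (T : Sub m a) : F :=
  if T.1 ⊆ A.1 then 1 else 0

-- (job 32064)
theorem inc_dot_card {m : ℕ} (a : ℕ) (B : Finset (Fin m)) :
    (univ.filter (fun T : Sub m a => T.1 ⊆ B)).card = B.card.choose a := by
  rw [← Finset.card_powersetCard, ← Finset.card_map (Function.Embedding.subtype _)]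
  congr 1
  ext T
  simp only [Finset.mem_map, Finset.mem_filter, Finset.mem_univ, true_and,
    Function.Embedding.coe_subtype, Finset.mem_powersetCard]
  constructor
  · rintro ⟨T', h, rfl⟩
    exact ⟨h, T'.2⟩
  · rintro ⟨h1, h2⟩
    exact ⟨⟨T, h2⟩, h1, rfl⟩

theorem inc_dot (F : Type) [CommRing F] {m s : ℕ} (a : ℕ) (A A' : Sub m s) :
    (inc F a A : Sub m a → F) ⬝ᵥ (inc F a A') = (((A.1 ∩ A'.1).card.choose a : ℕ) : F) := by
  unfold dotProduct inc
  have e : ∀ T : Sub m a, (if T.1 ⊆ A.1 then (1 : F) else 0) * (if T.1 ⊆ A'.1 then (1 : F) else 0) =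
      if T.1 ⊆ A.1 ∩ A'.1 then 1 else 0 := by
    intro T
    by_cases h1 : T.1 ⊆ A.1
    · by_cases h2 : T.1 ⊆ A'.1
      · rw [if_pos h1, if_pos h2, if_pos (Finset.subset_inter h1 h2), one_mul]
      · rw [if_neg h2, if_neg (show ¬ T.1 ⊆ A.1 ∩ A'.1 from
          fun h => h2 (h.trans Finset.inter_subset_right)), mul_zero]
    · rw [if_neg h1, if_neg (show ¬ T.1 ⊆ A.1 ∩ A'.1 from
        fun h => h1 (h.trans Finset.inter_subset_left)), zero_mul]
  rw [Finset.sum_congr rfl fun T _ => e T, Finset.sum_boole, inc_dot_card]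

-- (job 32092)
theorem inc_three (m : ℕ) (A : Sub m 11) :
    (inc (ZMod 3) 2 A : Sub m 2 → ZMod 3) ⬝ᵥ (inc (ZMod 3) 2 A) ≠ 0 := by
  rw [inc_dot, Finset.inter_self, A.2]
  decide

-- (job 32098)
theorem inc_two (m : ℕ) (A : Sub m 11) :
    (inc (ZMod 2) 3 A : Sub m 3 → ZMod 2) ⬝ᵥ (inc (ZMod 2) 3 A) = 1 := by
  rw [inc_dot, Finset.inter_self, A.2]
  decide

-- (job 32103)
theorem inc_cross_num : ∀ s : Fin 11, (((s : ℕ).choose 2 : ℕ) : ZMod 3) = 0 ∨
    (((s : ℕ).choose 3 : ℕ) : ZMod 2) = 0 := by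
  decide

theorem inc_cross (m : ℕ) (A A' : Sub m 11) (h : A ≠ A') :
    (inc (ZMod 3) 2 A : Sub m 2 → ZMod 3) ⬝ᵥ (inc (ZMod 3) 2 A') = 0 ∨
      (inc (ZMod 2) 3 A : Sub m 3 → ZMod 2) ⬝ᵥ (inc (ZMod 2) 3 A') = 0 := by
  rw [inc_dot, inc_dot]
  have hlt : (A.1 ∩ A'.1).card < 11 := by
    by_contra hge
    push Not at hge
    have h1 : A.1 ∩ A'.1 = A.1 :=
      Finset.eq_of_subset_of_card_le Finset.inter_subset_left (by rw [A.2]; exact hge)
    have h2 : A.1 ∩ A'.1 = A'.1 :=
      Finset.eq_of_subset_of_card_le Finset.inter_subset_right (by rw [A'.2]; exact hge)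
    exact h (Subtype.ext (h1.symm.trans h2))
  exact inc_cross_num ⟨_, hlt⟩

/-! ### asymptotics -/

-- (job 32050)
theorem asym_exp : ∀ᶠ m : ℕ in Filter.atTop, 16 * m^11 ≤ 2^(m+1) := by
  have h := tendsto_pow_const_div_const_pow_of_one_lt 11 (show (1:ℝ) < 2 by norm_num)
  have h2 := h.eventually (gt_mem_nhds (show (0:ℝ) < 1/8 by norm_num))
  filter_upwards [h2] with m hm
  have hp : (0:ℝ) < 2^m := by positivity
  rw [div_lt_iff₀ hp] at hm
  have : (16 * (m:ℝ)^11) ≤ 2^(m+1) := by rw [pow_succ (2:ℝ) m]; linarith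
  exact_mod_cast this

theorem asym_log (C M : ℝ) (hM : 0 < M) :
    ∀ᶠ m : ℕ in Filter.atTop, M * (Real.log m)^C < (m:ℝ)^2 := by
  have h := (isLittleO_log_rpow_rpow_atTop C (show (0:ℝ) < 2 by norm_num)).def
    (show (0:ℝ) < 1/(M+1) by positivity)
  have h2 := (tendsto_natCast_atTop_atTop (R := ℝ)).eventually h
  filter_upwards [h2, Filter.eventually_ge_atTop 1] with m hm h1
  have hm1 : (1:ℝ) ≤ m := by exact_mod_cast h1
  have hlog : 0 ≤ Real.log m := Real.log_nonneg hm1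
  rw [Real.norm_of_nonneg (Real.rpow_nonneg hlog _), Real.norm_of_nonneg (by positivity)] at hm
  rw [Real.rpow_two] at hm
  have hpos : (0:ℝ) < (m:ℝ)^2 := by positivity
  have h3 : M * (Real.log m)^C ≤ M * (1/(M+1) * (m:ℝ)^2) := mul_le_mul_of_nonneg_left hm hM.le
  refine h3.trans_lt ?_
  have h4 : M * (1/(M+1) * (m:ℝ)^2) = (M/(M+1)) * (m:ℝ)^2 := by ring
  rw [h4]
  have h5 : M/(M+1) < 1 := by rw [div_lt_one (by linarith)]; linarith
  nlinarith

theorem asym (C : ℝ) (hC : 0 < C) : ∃ m : ℕ, 16 * m.choose 11 ≤ 2 ^ (m + 1) ∧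
    2 ≤ m.choose 11 * (m + 1) ∧
    ∀ k : ℕ, m.choose 11 ≤ 4 * (m.choose 2 + 1) * (k * m.choose 3) →
      C * (1 + Real.logb 2 ((m.choose 11 * (m + 1) : ℕ) : ℝ)) ^ C *
        (((2 * (m.choose 2 + 4) ^ 2 : ℕ) : ℝ) + 1) < (k : ℝ) := by
  have hM : (0:ℝ) < C * 3 * (2^13 * (Nat.factorial 11 : ℝ)) * (28:ℝ)^C := by positivity
  obtain ⟨m, he, hl, hm⟩ :=
    ((asym_exp.and ((asym_log C _ hM).and (Filter.eventually_ge_atTop 20)))).exists
  have hch : m.choose 11 ≤ m^11 := Nat.choose_le_pow m 11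
  have hpos11 : 0 < m.choose 11 := Nat.choose_pos (by omega)
  refine ⟨m, (Nat.mul_le_mul_left 16 hch).trans he, by nlinarith, ?_⟩
  intro k hk
  have hmR : (20:ℝ) ≤ m := by exact_mod_cast hm
  have hk' : (m.choose 11 : ℝ) ≤ 4 * ((m.choose 2 : ℝ) + 1) * (k * (m.choose 3 : ℝ)) := by exact_mod_cast hk
  have c2 : (m.choose 2 : ℝ) ≤ (m:ℝ)^2 / 2 := by
    have := Nat.choose_le_pow_div (α := ℝ) 2 m
    simpa using this
  have c3 : (m.choose 3 : ℝ) ≤ (m:ℝ)^3 := by exact_mod_cast Nat.choose_le_pow m 3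
  have low : ((m:ℝ)/2)^11 ≤ (Nat.factorial 11 : ℝ) * (m.choose 11 : ℝ) := by
    have h1 := Nat.pow_le_choose (α := ℝ) 11 m
    have h2 : ((m:ℝ)/2)^11 ≤ (((m + 1 - 11 : ℕ)) : ℝ)^11 := by
      apply pow_le_pow_left₀ (by positivity)
      rw [Nat.cast_sub (by omega)]
      push_cast
      linarith
    have h3 : (((m + 1 - 11 : ℕ)) : ℝ)^11 / (Nat.factorial 11 : ℝ) ≤ (m.choose 11 : ℝ) := by
      simpa using h1
    rw [div_le_iff₀ (by positivity)] at h3
    linarith
  have hF : (0:ℝ) < 2^13 * (Nat.factorial 11 : ℝ) := by positivity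
  have hk0 : (0:ℝ) ≤ k := Nat.cast_nonneg k
  have hkb : (m:ℝ)^6 ≤ (2^13 * (Nat.factorial 11 : ℝ)) * k := by
    have h1 : 4 * ((m.choose 2 : ℝ) + 1) * (k * (m.choose 3 : ℝ)) ≤ 4 * ((m:ℝ)^2) * (k * (m:ℝ)^3) := by
      apply mul_le_mul
      · nlinarith
      · exact mul_le_mul_of_nonneg_left c3 hk0
      · positivity
      · positivity
    have h2 : ((m:ℝ)/2)^11 ≤ (Nat.factorial 11 : ℝ) * (4 * ((m:ℝ)^2) * (k * (m:ℝ)^3)) :=
      low.trans (mul_le_mul_of_nonneg_left (hk'.trans h1) (by positivity))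
    have h3 : (m:ℝ)^6 * (m:ℝ)^5 ≤ ((2^13 * (Nat.factorial 11 : ℝ)) * k) * (m:ℝ)^5 := by
      have e1 : ((m:ℝ)/2)^11 = (m:ℝ)^6 * (m:ℝ)^5 / 2^11 := by ring
      rw [e1, div_le_iff₀ (by positivity)] at h2
      refine h2.trans (le_of_eq ?_)
      ring
    exact le_of_mul_le_mul_right h3 (by positivity)
  have hlogm : 1 ≤ Real.logb 2 m := by
    rw [Real.le_logb_iff_rpow_le (by norm_num) (by linarith)]
    simp; linarith
  have hn : Real.logb 2 ((m.choose 11 * (m + 1) : ℕ) : ℝ) ≤ 13 * Real.logb 2 m := by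
    have h1 : ((m.choose 11 * (m + 1) : ℕ) : ℝ) ≤ (m:ℝ)^13 := by
      push_cast
      have h2 : (m.choose 11 : ℝ) ≤ (m:ℝ)^11 := by exact_mod_cast hch
      have h3 : (m:ℝ) + 1 ≤ (m:ℝ)^2 := by nlinarith
      calc (m.choose 11 : ℝ) * ((m:ℝ) + 1) ≤ (m:ℝ)^11 * (m:ℝ)^2 := by
            apply mul_le_mul h2 h3 (by positivity) (by positivity)
        _ = (m:ℝ)^13 := by ring
    have h4 : Real.logb 2 ((m.choose 11 * (m + 1) : ℕ) : ℝ) ≤ Real.logb 2 ((m:ℝ)^13) := by
      apply Real.logb_le_logb_of_le (by norm_num) _ h1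
      have : 0 < m.choose 11 * (m + 1) := by positivity
      exact_mod_cast this
    rw [Real.logb_pow] at h4
    exact_mod_cast h4
  have hn0 : 0 ≤ Real.logb 2 ((m.choose 11 * (m + 1) : ℕ) : ℝ) := by
    apply Real.logb_nonneg (by norm_num)
    have : 1 ≤ m.choose 11 * (m + 1) := by nlinarith
    exact_mod_cast this
  have hl28 : Real.logb 2 m ≤ 2 * Real.log m := by
    unfold Real.logb
    rw [div_le_iff₀ (Real.log_pos (by norm_num))]
    have h1 : (1:ℝ)/2 ≤ Real.log 2 := by linarith [Real.log_two_gt_d9]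
    have h2 : 0 ≤ Real.log m := Real.log_nonneg (by linarith)
    nlinarith
  have hlog0 : 0 ≤ Real.log m := Real.log_nonneg (by linarith)
  have hbase : (1 + Real.logb 2 ((m.choose 11 * (m + 1) : ℕ) : ℝ)) ^ C ≤ (28:ℝ)^C * (Real.log m)^C := by
    rw [← Real.mul_rpow (by norm_num) hlog0]
    apply Real.rpow_le_rpow (by linarith) _ hC.le
    linarith
  have hq : (((2 * (m.choose 2 + 4) ^ 2 : ℕ) : ℝ) + 1) ≤ 3 * (m:ℝ)^4 := by
    push_cast
    have h1 : (m.choose 2 : ℝ) + 4 ≤ (m:ℝ)^2 := by nlinarith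
    have h2 : ((m.choose 2 : ℝ) + 4)^2 ≤ ((m:ℝ)^2)^2 := pow_le_pow_left₀ (by positivity) h1 2
    have h3 : (1:ℝ) ≤ ((m:ℝ)^2)^2 := by
      have : (1:ℝ) ≤ (m:ℝ)^2 := by nlinarith
      nlinarith
    have h4 : ((m:ℝ)^2)^2 = (m:ℝ)^4 := by ring
    linarith
  have hlogC : 0 ≤ (Real.log m)^C := Real.rpow_nonneg hlog0 _
  have hX : C * (1 + Real.logb 2 ((m.choose 11 * (m + 1) : ℕ) : ℝ)) ^ C *
        (((2 * (m.choose 2 + 4) ^ 2 : ℕ) : ℝ) + 1) ≤ C * ((28:ℝ)^C * (Real.log m)^C) * (3 * (m:ℝ)^4) := by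
    apply mul_le_mul (mul_le_mul_of_nonneg_left hbase hC.le) hq (by positivity)
    positivity
  refine lt_of_le_of_lt hX ?_
  have hm4 : (0:ℝ) < (m:ℝ)^4 := by positivity
  have h5 := mul_lt_mul_of_pos_right hl hm4
  have h6 : (2^13 * (Nat.factorial 11 : ℝ)) * (C * ((28:ℝ)^C * (Real.log m)^C) * (3 * (m:ℝ)^4)) <
      (2^13 * (Nat.factorial 11 : ℝ)) * k := by
    refine lt_of_lt_of_le ?_ hkb
    calc (2^13 * (Nat.factorial 11 : ℝ)) * (C * ((28:ℝ)^C * (Real.log m)^C) * (3 * (m:ℝ)^4))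
        = C * 3 * (2^13 * (Nat.factorial 11 : ℝ)) * (28:ℝ)^C * (Real.log m)^C * (m:ℝ)^4 := by ring
      _ < (m:ℝ)^2 * (m:ℝ)^4 := h5
      _ = (m:ℝ)^6 := by ring
  exact lt_of_mul_lt_mul_left h6 hF.le

/-! ### main theorems -/

-- (job 32056)
theorem main_core (C : ℝ) (hC : 0 < C) :
    ∃ (n : ℕ) (f : (Fin n → ZMod 2) → Bool), 2 ≤ n ∧
      C * (1 + Real.logb 2 (n : ℝ)) ^ C * ((Rone (xorFun f) : ℝ) + 1) < (Rlin f : ℝ) := by
  obtain ⟨m, hm1, hm2, hm3⟩ := asym C hC
  have hcard : ∀ s, Fintype.card (Sub m s) = m.choose s := by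
    intro s
    have := Fintype.card_finset_len (α := Fin m) s
    rw [Fintype.card_fin] at this
    exact this
  obtain ⟨t, ht, hlow⟩ := lower_core (ι := Sub m 11) (R := Sub m 2) (Q := Sub m 3)
    (fun A => inc (ZMod 3) 2 A) (fun A => inc (ZMod 2) 3 A) m
    (by rw [hcard]; exact hm1) (inc_three m) (inc_two m) (inc_cross m)
  have hJ : Fintype.card (Sub m 11 × Fin (m + 1)) = m.choose 11 * (m + 1) := by
    rw [Fintype.card_prod, hcard, Fintype.card_fin]
  let e : Sub m 11 × Fin (m + 1) ≃ Fin (m.choose 11 * (m + 1)) := Fintype.equivFinOfCardEq hJ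
  let f : (Fin (m.choose 11 * (m + 1)) → ZMod 2) → Bool := fun z =>
    fJ (fun q : Sub m 11 × Fin (m + 1) => (inc (ZMod 3) 2 q.1 : Sub m 2 → ZMod 3)) t
      (fun j => z (e j))
  refine ⟨m.choose 11 * (m + 1), f, hm2, ?_⟩
  have h1 : Rone (xorFun f) ≤ 2 * (t + 4) ^ 2 :=
    Nat.sInf_le (oneway_transfer e _ _ (oneway_upper _ t))
  have ht' : t ≤ m.choose 2 := by rw [← hcard 2]; exact ht
  have h2 : Rone (xorFun f) ≤ 2 * (m.choose 2 + 4) ^ 2 :=
    h1.trans (Nat.mul_le_mul_left _ (Nat.pow_le_pow_left (by omega) 2))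
  have h3 : LinSketch f (Rlin f) := Nat.sInf_mem (linSketch_exists f)
  have h4 := lin_transfer e _ _ h3
  have h5 := hlow _ h4
  rw [hcard, hcard, hcard] at h5
  have h6 := hm3 (Rlin f) h5
  refine lt_of_le_of_lt ?_ h6
  have hn : (1 : ℝ) ≤ ((m.choose 11 * (m + 1) : ℕ) : ℝ) := by
    exact_mod_cast (by omega : 1 ≤ m.choose 11 * (m + 1))
  have hlog : 0 ≤ Real.logb 2 ((m.choose 11 * (m + 1) : ℕ) : ℝ) :=
    Real.logb_nonneg (by norm_num) hn
  have hnn : 0 ≤ C * (1 + Real.logb 2 ((m.choose 11 * (m + 1) : ℕ) : ℝ)) ^ C :=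
    mul_nonneg hC.le (Real.rpow_nonneg (by linarith) _)
  refine mul_le_mul_of_nonneg_left ?_ hnn
  have : ((Rone (xorFun f) : ℕ) : ℝ) ≤ ((2 * (m.choose 2 + 4) ^ 2 : ℕ) : ℝ) := by
    exact_mod_cast h2
  linarith

-- (job 32066)
theorem main_seq :
    ∃ f : (n : ℕ) → (Fin n → ZMod 2) → Bool, ∀ K a : ℝ, ∃ n : ℕ, 2 ≤ n ∧
      K * (Real.logb 2 (n : ℝ)) ^ a < (Rlin (f n) : ℝ) / ((Rone (xorFun (f n)) : ℝ) + 1) := by
  have hmax : ∀ n : ℕ, ∃ f : (Fin n → ZMod 2) → Bool, ∀ g : (Fin n → ZMod 2) → Bool,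
      (Rlin g : ℝ) / ((Rone (xorFun g) : ℝ) + 1) ≤ (Rlin f : ℝ) / ((Rone (xorFun f) : ℝ) + 1) :=
    fun n => Finite.exists_max (fun f : (Fin n → ZMod 2) → Bool =>
      (Rlin f : ℝ) / ((Rone (xorFun f) : ℝ) + 1))
  choose F hF using hmax
  refine ⟨F, fun K a => ?_⟩
  obtain ⟨C, hC⟩ : ∃ C : ℝ, C = max 1 (max K a) := ⟨_, rfl⟩
  have hC1 : 1 ≤ C := by rw [hC]; exact le_max_left _ _
  have hCK : K ≤ C := by rw [hC]; exact (le_max_left _ _).trans (le_max_right _ _)
  have hCa : a ≤ C := by rw [hC]; exact (le_max_right _ _).trans (le_max_right _ _)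
  have hC0 : 0 < C := by linarith
  obtain ⟨n, f, hn, hf⟩ := main_core C hC0
  refine ⟨n, hn, ?_⟩
  refine lt_of_lt_of_le ?_ (hF n f)
  have hR : (0 : ℝ) < (Rone (xorFun f) : ℝ) + 1 := by positivity
  rw [← lt_div_iff₀ hR] at hf
  refine lt_of_le_of_lt ?_ hf
  have hn' : (2 : ℝ) ≤ n := by exact_mod_cast hn
  have hL : 1 ≤ Real.logb 2 (n : ℝ) := by
    have h1 : Real.logb 2 2 = 1 := Real.logb_self_eq_one (by norm_num)
    rw [← h1]
    exact Real.logb_le_logb_of_le (by norm_num) (by norm_num) hn'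
  have hL0 : 0 ≤ Real.logb 2 (n : ℝ) := by linarith
  calc K * (Real.logb 2 (n : ℝ)) ^ a ≤ C * (Real.logb 2 (n : ℝ)) ^ a :=
        mul_le_mul_of_nonneg_right hCK (Real.rpow_nonneg hL0 _)
    _ ≤ C * (Real.logb 2 (n : ℝ)) ^ C :=
        mul_le_mul_of_nonneg_left (Real.rpow_le_rpow_of_exponent_le hL hCa) hC0.le
    _ ≤ C * (1 + Real.logb 2 (n : ℝ)) ^ C :=
        mul_le_mul_of_nonneg_left (Real.rpow_le_rpow hL0 (by linarith) hC0.le) hC0.le

end Pool.Agent.Helper437.Sk
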